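import Pool.Agent.Helper29.SH.Goals

set_option autoImplicit false

namespace Pool.Agent.Helper43.SH.LFA

open Subgroup Pool.H83Shunkov Pool.Agent.Helper29.SH

theorem t_LFA : S_LFA := by
  intro G _ a L ha hinv hL
  have hpow : ∀ (j : ℕ) (k : G), k ∈ L → (a ^ j)⁻¹ * k * a ^ j ∈ L := by
    intro j
    induction j with
    | zero => intro k hk; simpa using hk
    | succ j ih =>
      intro k hk
      have h1 := hinv _ (ih k hk)
      have h2 : (a ^ (j + 1))⁻¹ * k * a ^ (j + 1) = a⁻¹ * ((a ^ j)⁻¹ * k * a ^ j) * a := by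
        rw [pow_succ, mul_inv_rev]; group
      rw [h2]; exact h1
  have hback : ∀ k ∈ L, a * k * a⁻¹ ∈ L := by
    intro k hk
    have hn : 0 < orderOf a := ha.orderOf_pos
    have h1 := hpow (orderOf a - 1) k hk
    have h2 : a ^ (orderOf a - 1) = a⁻¹ := by
      rw [eq_inv_iff_mul_eq_one, ← pow_succ, Nat.sub_add_cancel hn, pow_orderOf_eq_one]
    rw [h2, inv_inv] at h1
    exact h1
  have haN : a ∈ Subgroup.normalizer (L : Set G) := by
    rw [Subgroup.mem_normalizer_iff]
    intro h
    constructor
    · intro hh; exact hback h hh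
    · intro hh
      have := hinv _ hh
      have h3 : a⁻¹ * (a * h * a⁻¹) * a = h := by group
      rw [h3] at this
      exact this
  set M : Subgroup G := L ⊔ zpowers a with hM
  have hMN : M ≤ Subgroup.normalizer (L : Set G) := by
    rw [hM, sup_le_iff]
    exact ⟨Subgroup.le_normalizer, by rw [zpowers_le]; exact haN⟩
  have hLM : L ≤ M := le_sup_left
  have hZM : zpowers a ≤ M := le_sup_right
  haveI : (L.subgroupOf M).Normal := Subgroup.normal_subgroupOf_of_le_normalizer hMN
  have h1 : IsLocFin (L.subgroupOf M) := hL.comap_of_injective M.subtype M.subtype_injective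
  have hZ : IsLocFin (zpowers a) := isLocFin_of_finite (by
    have := ha.finite_zpowers
    exact this)
  have h2 : IsLocFin ((zpowers a).subgroupOf M) :=
    hZ.comap_of_injective M.subtype M.subtype_injective
  have h3 := (IsLocFin.sup h1 h2).map M.subtype
  rw [Subgroup.map_sup, Subgroup.subgroupOf_map_subtype, Subgroup.subgroupOf_map_subtype,
    inf_eq_left.2 hLM, inf_eq_left.2 hZM] at h3
  exact h3

end Pool.Agent.Helper43.SH.LFA
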